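import Pool.Agent.H4.Sig3

set_option autoImplicit false

namespace Pool.Agent.Results.MP_e24068_lc.Hard

open Pool.Agent.H11.PT Pool.Agent.H4.Sig

/-- FACT: the instance is the alphabet `{0, …, K-1}` and a nonempty list of words over it; the
language of these words is a product `L₁L₂` of finite languages, both different from `{ε}`. -/
def FACT (y : ℕ × List (List ℕ)) : Prop :=
  y.2 ≠ [] ∧ (∀ w ∈ y.2, ∀ x ∈ w, x < y.1) ∧
  ∃ L₁ L₂ : Finset (List ℕ), (∀ u ∈ L₁, ∀ x ∈ u, x < y.1) ∧ (∀ v ∈ L₂, ∀ x ∈ v, x < y.1) ∧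
    L₁ ≠ {[]} ∧ L₂ ≠ {[]} ∧ ∀ w, w ∈ y.2 ↔ ∃ u ∈ L₁, ∃ v ∈ L₂, w = u ++ v

abbrev Cl := ℕ × ℕ × ℕ

def vr (c : Cl) (i : ℕ) : ℕ := if i = 1 then c.1 else if i = 2 then c.2.1 else c.2.2

def Ac (c : Cl) : List ℕ := [3, 5, 67, 69] ++ [1, 2, 3].flatMap fun i =>
  [2 + 16 * i, 4 + 16 * i, 3 + 16 * i + 1024 * (1 + vr c i), 5 + 16 * i + 1024 * (1 + vr c i)]

def Bc (N : ℕ) (c : Cl) : List ℕ :=
  [3, 4, 515, 516].map (fun b => b + 1024 * N) ++ [1, 2, 3].flatMap fun j =>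
    [0, 1, 5, 6].map (fun b => b + 128 * j + 1024 * N) ++
    ((List.range N).filter fun y => decide (y ≠ vr c j)).flatMap fun y =>
      [3 + 128 * j + 1024 * (N - (1 + y)), 4 + 128 * j + 1024 * (N - (1 + y))]

theorem mem_Ac {c : Cl} {a : ℕ} : a ∈ Ac c ↔ (a = 3 ∨ a = 5 ∨ a = 67 ∨ a = 69) ∨
    ∃ i, (i = 1 ∨ i = 2 ∨ i = 3) ∧ (a = 2 + 16 * i ∨ a = 4 + 16 * i ∨
      a = 3 + 16 * i + 1024 * (1 + vr c i) ∨ a = 5 + 16 * i + 1024 * (1 + vr c i)) := by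
  simp only [Ac, List.mem_append, List.mem_flatMap, List.mem_cons, List.not_mem_nil, or_false]

theorem mem_Bc {N : ℕ} {c : Cl} {b : ℕ} : b ∈ Bc N c ↔
    (∃ o, (o = 3 ∨ o = 4 ∨ o = 515 ∨ o = 516) ∧ o + 1024 * N = b) ∨
    ∃ j, (j = 1 ∨ j = 2 ∨ j = 3) ∧
      ((∃ o, (o = 0 ∨ o = 1 ∨ o = 5 ∨ o = 6) ∧ o + 128 * j + 1024 * N = b) ∨
      ∃ y, (y < N ∧ y ≠ vr c j) ∧
        (b = 3 + 128 * j + 1024 * (N - (1 + y)) ∨ b = 4 + 128 * j + 1024 * (N - (1 + y)))) := by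
  simp only [Bc, List.mem_append, List.mem_flatMap, List.mem_cons, List.not_mem_nil, or_false,
    List.mem_map, List.mem_filter, List.mem_range, decide_eq_true_eq]

def cl (φ : List Cl) (t : ℕ) : Cl := φ.getD (t - 2) (0, 0, 0)

def A (φ : List Cl) (t : ℕ) : List ℕ :=
  if t = 0 then [0, 2] else if t = 1 then [3, 131, 259] else Ac (cl φ t)

def B (φ : List Cl) (t : ℕ) : List ℕ :=
  if t = 0 then [0, 1] else if t = 1 then [3, 19, 35] else Bc (nv φ) (cl φ t)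

def Ls (φ : List Cl) (t s : ℕ) : List ℕ :=
  (A φ t).flatMap (fun a => (B φ s).map fun b => a + b) ++
    (if 2 ≤ t ∧ s = 1 then [54] else if t = 1 ∧ 2 ≤ s then [390 + 1024 * nv φ] else [])

theorem mem_Ls {φ : List Cl} {t s k : ℕ} : k ∈ Ls φ t s ↔ (∃ a ∈ A φ t, ∃ b ∈ B φ s, a + b = k) ∨
    (2 ≤ t ∧ s = 1 ∧ k = 54) ∨ (t = 1 ∧ 2 ≤ s ∧ k = 390 + 1024 * nv φ) := by
  simp only [Ls, List.mem_append, List.mem_flatMap, List.mem_map]
  refine or_congr Iff.rfl ?_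
  split_ifs <;> simp <;> omega

theorem A2 (φ : List Cl) {t : ℕ} (h : 2 ≤ t) : A φ t = Ac (cl φ t) := by
  rw [A, if_neg (by omega), if_neg (by omega)]
theorem B2 (φ : List Cl) {t : ℕ} (h : 2 ≤ t) : B φ t = Bc (nv φ) (cl φ t) := by
  rw [B, if_neg (by omega), if_neg (by omega)]

theorem vr_lt (φ : List Cl) (t i : ℕ) : vr (cl φ t) i < nv φ := by
  have : (cl φ t).1 + (cl φ t).2.1 + (cl φ t).2.2 < nv φ := by
    unfold cl
    rcases lt_or_ge (t - 2) φ.length with h | h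
    · rw [List.getD_eq_getElem _ _ h]
      exact Nat.lt_succ_of_le (List.single_le_sum (by simp) _
        (List.mem_map_of_mem (f := fun c : Cl => c.1 + c.2.1 + c.2.2) (List.getElem_mem h)))
    · rw [List.getD_eq_default _ _ h]; simp [nv]
  unfold vr; split_ifs <;> omega

attribute [local irreducible] nv

theorem nand {c c' : Cl} {N i j a b : ℕ} (hi : i = 1 ∨ i = 2 ∨ i = 3) (hj : j = 1 ∨ j = 2 ∨ j = 3)
    (e : vr c i = vr c' j) (ha : a ∈ Ac c) (hb : b ∈ Bc N c')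
    (h : a + b = 6 + 16 * i + 128 * j + 1024 * N) : False := by
  obtain ⟨o, i', z, rfl, h1, h2, h3⟩ : ∃ o i' z, a = o + 16 * i' + 1024 * z ∧ o ≤ 5 ∧ i' ≤ 4 ∧
      ((z = 0 ∧ (i' = 0 ∨ i' = 4 ∨ o = 2 ∨ o = 4)) ∨ z = 1 + vr c i') := by
    rcases mem_Ac.1 ha with ha | ⟨i', hi', ha | ha | ha | ha⟩
    · exact ⟨a % 16, a / 16, 0, by omega, by omega, by omega, by omega⟩
    · exact ⟨2, i', 0, by omega, by omega, by omega, by omega⟩
    · exact ⟨4, i', 0, by omega, by omega, by omega, by omega⟩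
    · exact ⟨3, i', _, ha, by omega, by omega, by omega⟩
    · exact ⟨5, i', _, ha, by omega, by omega, by omega⟩
  obtain ⟨o', j', z', rfl, g1, g2, g3⟩ : ∃ o j' z, b = o + 128 * j' + 1024 * z ∧ o ≤ 6 ∧ j' ≤ 4 ∧
      ((z = N ∧ (j' = 0 ∨ j' = 4 ∨ o = 0 ∨ o = 1 ∨ o = 5 ∨ o = 6)) ∨
        ∃ y, y < N ∧ y ≠ vr c' j' ∧ z = N - (1 + y)) := by
    rcases mem_Bc.1 hb with ⟨o, ho, hb⟩ | ⟨j', hj', ⟨o, ho, hb⟩ | ⟨y, ⟨y1, y2⟩, hb | hb⟩⟩
    · exact ⟨o % 128, o / 128, N, by omega, by omega, by omega, Or.inl (by omega)⟩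
    · exact ⟨o, j', N, hb.symm, by omega, by omega, Or.inl (by omega)⟩
    · exact ⟨3, j', _, hb, by omega, by omega, Or.inr ⟨y, y1, y2, rfl⟩⟩
    · exact ⟨4, j', _, hb, by omega, by omega, Or.inr ⟨y, y1, y2, rfl⟩⟩
  have k : i' = i ∧ j' = j ∧ o + o' = 6 ∧ z + z' = N := by
    clear h3 g3 ha hb e
    omega
  clear h ha hb
  obtain ⟨rfl, rfl, k1, k2⟩ := k
  rcases g3 with g3 | ⟨y, y1, y2, y3⟩ <;> omega

def SumFac (φ : List Cl) (P Q : ℕ → Set ℕ) : Prop :=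
  ∀ t < φ.length + 2, ∀ s < φ.length + 2, ∀ k, k ∈ Ls φ t s ↔ ∃ a ∈ P t, ∃ b ∈ Q s, a + b = k

theorem sound {φ : List Cl} {P Q : ℕ → Set ℕ} (h : SumFac φ P Q) : NAE3 φ := by
  classical
  have l00 : ∀ k, k ∈ Ls φ 0 0 ↔ k = 0 ∨ k = 1 ∨ k = 2 ∨ k = 3 := by
    intro k; simp [mem_Ls, A, B]; omega
  have l10 : ∀ k, k ∈ Ls φ 1 0 ↔ k = 3 ∨ k = 4 ∨ k = 131 ∨ k = 132 ∨ k = 259 ∨ k = 260 := by
    intro k; simp [mem_Ls, A, B]; omega
  have l01 : ∀ k, k ∈ Ls φ 0 1 ↔ k = 3 ∨ k = 19 ∨ k = 35 ∨ k = 5 ∨ k = 21 ∨ k = 37 := by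
    intro k; simp [mem_Ls, A, B]; omega
  have h00 := h 0 (by omega) 0 (by omega)
  have h10 := h 1 (by omega) 0 (by omega)
  have h01 := h 0 (by omega) 1 (by omega)
  simp only [l00, l10, l01] at h00 h10 h01
  obtain ⟨a, p0, b, q0, e⟩ := (h00 0).1 (by simp)
  obtain ⟨rfl, rfl⟩ : a = 0 ∧ b = 0 := by omega
  have p3 : 3 ∈ P 1 := by
    obtain ⟨a, ha, b, hb, e⟩ := (h10 3).1 (by simp)
    have := (h10 _).2 ⟨a, ha, 0, q0, rfl⟩
    rwa [show 3 = a by omega]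
  have q3 : 3 ∈ Q 1 := by
    obtain ⟨a, ha, b, hb, e⟩ := (h01 3).1 (by simp)
    have := (h01 _).2 ⟨0, p0, b, hb, rfl⟩
    rwa [show 3 = b by omega]
  obtain ⟨p2, q1⟩ : 2 ∈ P 0 ∧ 1 ∈ Q 0 := by
    obtain ⟨a, ha, b, hb, e⟩ := (h00 3).1 (by simp)
    have := (h10 _).2 ⟨3, p3, b, hb, rfl⟩
    have := (h01 _).2 ⟨a, ha, 3, q3, rfl⟩
    obtain ⟨rfl, rfl⟩ : a = 2 ∧ b = 1 := by omega
    exact ⟨ha, hb⟩
  have hP : ∀ t, 2 ≤ t → t < φ.length + 2 → ∃ i, (i = 1 ∨ i = 2 ∨ i = 3) ∧ 3 + 16 * i ∈ P t := by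
    intro t h1 h2
    obtain ⟨a, ha, b, hb, e⟩ := (h t h2 1 (by omega) 54).1 (mem_Ls.2 (by simp [h1]))
    have := (h01 _).2 ⟨0, p0, b, hb, rfl⟩
    have := (h01 _).2 ⟨2, p2, b, hb, rfl⟩
    exact ⟨(a - 3) / 16, by omega, by rwa [show 3 + 16 * ((a - 3) / 16) = a by omega]⟩
  have hQ : ∀ t, 2 ≤ t → t < φ.length + 2 → ∃ j, (j = 1 ∨ j = 2 ∨ j = 3) ∧
      3 + 128 * j + 1024 * nv φ ∈ Q t := by
    intro t h1 h2
    obtain ⟨a, ha, b, hb, e⟩ := (h 1 (by omega) t h2 _).1 (mem_Ls.2 (Or.inr (Or.inr ⟨rfl, h1, rfl⟩)))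
    have := (h10 _).2 ⟨a, ha, 0, q0, rfl⟩
    have := (h10 _).2 ⟨a, ha, 1, q1, rfl⟩
    exact ⟨3 - a / 128, by omega,
      by rwa [show 3 + 128 * (3 - a / 128) + 1024 * nv φ = b by omega]⟩
  have hN : ∀ t s i j, 2 ≤ t → t < φ.length + 2 → 2 ≤ s → s < φ.length + 2 →
      (i = 1 ∨ i = 2 ∨ i = 3) → (j = 1 ∨ j = 2 ∨ j = 3) → 3 + 16 * i ∈ P t →
      3 + 128 * j + 1024 * nv φ ∈ Q s → vr (cl φ t) i ≠ vr (cl φ s) j := by
    intro t s i j t1 t2 s1 s2 hi hj ha hb e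
    have := (h t t2 s s2 _).2 ⟨_, ha, _, hb, rfl⟩
    rw [mem_Ls, A2 φ t1, B2 φ s1] at this
    obtain ⟨a, ha, b, hb, e'⟩ := this.resolve_right (by omega)
    exact nand hi hj e ha hb (by omega)
  obtain ⟨S, hS⟩ : ∃ S : ℕ → Prop, ∀ v, S v ↔ ∃ t i, 2 ≤ t ∧ t < φ.length + 2 ∧
    (i = 1 ∨ i = 2 ∨ i = 3) ∧ 3 + 16 * i ∈ P t ∧ vr (cl φ t) i = v := ⟨_, fun _ => Iff.rfl⟩
  refine ⟨fun v => decide (S v), fun c hc => ?_⟩
  obtain ⟨n, hn, rfl⟩ := List.getElem_of_mem hc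
  have hc : cl φ (n + 2) = φ[n] := by simp [cl, hn]
  obtain ⟨i, hi, ha⟩ := hP (n + 2) (by omega) (by omega)
  obtain ⟨j, hj, hb⟩ := hQ (n + 2) (by omega) (by omega)
  have e1 : S (vr φ[n] i) := (hS _).2 ⟨n + 2, i, by omega, by omega, hi, ha, by rw [hc]⟩
  have e2 : ¬ S (vr φ[n] j) := by
    rw [hS]
    rintro ⟨t, i', t1, t2, hi', ha', e⟩
    exact hN t (n + 2) i' j t1 t2 (by omega) (by omega) hi' hj ha' hb (by rw [hc, e])
  simp only [decide_eq_decide]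
  rintro ⟨f1, f2⟩
  have : ∀ i, S (vr φ[n] i) ↔ S φ[n].1 := by
    intro i; unfold vr; split_ifs
    · rfl
    · exact f1.symm
    · exact (f1.trans f2).symm
  exact e2 ((this j).2 ((this i).1 e1))

theorem blurA (φ : List Cl) {t a : ℕ} (ht : t ≠ 1) (h : a ∈ A φ t) :
    a + 2 ∈ A φ t ∨ ∃ a' ∈ A φ t, a = a' + 2 := by
  rcases Nat.eq_zero_or_pos t with rfl | h0
  · simp [A] at h ⊢; omega
  rw [A2 φ (by omega)] at h ⊢
  rcases mem_Ac.1 h with (h | h | h | h) | ⟨i, hi, h | h | h | h⟩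
  all_goals first
    | exact Or.inl (mem_Ac.2 (Or.inl (by omega)))
    | exact Or.inr ⟨a - 2, mem_Ac.2 (Or.inl (by omega)), by omega⟩
    | exact Or.inl (mem_Ac.2 (Or.inr ⟨i, hi, by omega⟩))
    | exact Or.inr ⟨a - 2, mem_Ac.2 (Or.inr ⟨i, hi, by omega⟩), by omega⟩

theorem blurB (φ : List Cl) {t b : ℕ} (ht : t ≠ 1) (h : b ∈ B φ t) :
    b + 1 ∈ B φ t ∨ ∃ b' ∈ B φ t, b = b' + 1 := by
  rcases Nat.eq_zero_or_pos t with rfl | h0
  · simp [B] at h ⊢; omega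
  rw [B2 φ (by omega)] at h ⊢
  rcases mem_Bc.1 h with ⟨o, ho | ho | ho | ho, h⟩ | ⟨j, hj, ⟨o, ho | ho | ho | ho, h⟩ |
    ⟨y, hy, h | h⟩⟩
  all_goals first
    | exact Or.inl (mem_Bc.2 (Or.inl ⟨o + 1, by omega, by omega⟩))
    | exact Or.inr ⟨b - 1, mem_Bc.2 (Or.inl ⟨o - 1, by omega, by omega⟩), by omega⟩
    | exact Or.inl (mem_Bc.2 (Or.inr ⟨j, hj, Or.inl ⟨o + 1, by omega, by omega⟩⟩))
    | exact Or.inr ⟨b - 1, mem_Bc.2 (Or.inr ⟨j, hj, Or.inl ⟨o - 1, by omega, by omega⟩⟩), by omega⟩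
    | exact Or.inl (mem_Bc.2 (Or.inr ⟨j, hj, Or.inr ⟨y, hy, by omega⟩⟩))
    | exact Or.inr ⟨b - 1, mem_Bc.2 (Or.inr ⟨j, hj, Or.inr ⟨y, hy, by omega⟩⟩), by omega⟩

theorem complete {φ : List Cl} (h : NAE3 φ) :
    ∃ P Q : ℕ → Set ℕ, (∀ t, (P t).Finite ∧ (Q t).Finite) ∧ SumFac φ P Q := by
  obtain ⟨σ, hσ⟩ := h
  refine ⟨fun t => {a | a ∈ A φ t ∨ 2 ≤ t ∧ ∃ i, (i = 1 ∨ i = 2 ∨ i = 3) ∧ σ (vr (cl φ t) i) = true ∧
      a = 3 + 16 * i}, fun t => {b | b ∈ B φ t ∨ 2 ≤ t ∧ ∃ j, (j = 1 ∨ j = 2 ∨ j = 3) ∧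
      σ (vr (cl φ t) j) = false ∧ b = 3 + 128 * j + 1024 * nv φ}, fun t => ⟨?_, ?_⟩, ?_⟩
  · refine ((List.finite_toSet (A φ t)).union (Set.finite_Iic 51)).subset ?_
    rintro a (h | ⟨-, i, hi, -, h⟩)
    · exact Or.inl h
    · exact Or.inr (by simp only [Set.mem_Iic]; omega)
  · refine ((List.finite_toSet (B φ t)).union (Set.finite_Iic (387 + 1024 * nv φ))).subset ?_
    rintro a (h | ⟨-, i, hi, -, h⟩)
    · exact Or.inl h
    · exact Or.inr (by simp only [Set.mem_Iic]; omega)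
  have hc : ∀ t, 2 ≤ t → t < φ.length + 2 →
      (∃ i, (i = 1 ∨ i = 2 ∨ i = 3) ∧ σ (vr (cl φ t) i) = true) ∧
      ∃ i, (i = 1 ∨ i = 2 ∨ i = 3) ∧ σ (vr (cl φ t) i) = false := by
    intro t h1 h2
    have hm : cl φ t ∈ φ := by
      rw [cl, List.getD_eq_getElem _ _ (by omega)]; exact List.getElem_mem _
    have := hσ _ hm
    simp only [or_and_right, exists_or, exists_eq_left, vr]
    revert this
    cases h'' : σ (cl φ t).1 <;> cases h : σ (cl φ t).2.1 <;> cases h' : σ (cl φ t).2.2 <;> simp [h, h', h'']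
  intro t ht s hs k
  rw [mem_Ls]
  simp only [Set.mem_setOf_eq]
  constructor
  · rintro (⟨a, ha, b, hb, e⟩ | ⟨t2, rfl, rfl⟩ | ⟨rfl, s2, rfl⟩)
    · exact ⟨a, Or.inl ha, b, Or.inl hb, e⟩
    · obtain ⟨i, hi, e⟩ := (hc t t2 ht).1
      exact ⟨_, Or.inr ⟨t2, i, hi, e, rfl⟩, 51 - 16 * i, Or.inl (by simp [B]; omega), by omega⟩
    · obtain ⟨j, hj, e⟩ := (hc s s2 hs).2
      exact ⟨387 - 128 * j, Or.inl (by simp [A]; omega), _, Or.inr ⟨s2, j, hj, e, rfl⟩, by omega⟩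
  rintro ⟨a, ha | ⟨t2, i, hi, e1, rfl⟩, b, hb | ⟨s2, j, hj, e2, rfl⟩, rfl⟩
  · exact Or.inl ⟨a, ha, b, hb, rfl⟩
  · have w : ∀ o, (o = 0 ∨ o = 1 ∨ o = 5 ∨ o = 6) → o + 128 * j + 1024 * nv φ ∈ B φ s :=
      fun o ho => by rw [B2 φ s2]; exact mem_Bc.2 (Or.inr ⟨j, hj, Or.inl ⟨o, ho, rfl⟩⟩)
    by_cases t1 : t = 1
    · subst t1
      have w' : ∀ o, (o = 3 ∨ o = 4 ∨ o = 515 ∨ o = 516) → o + 1024 * nv φ ∈ B φ s :=
        fun o ho => by rw [B2 φ s2]; exact mem_Bc.2 (Or.inl ⟨o, ho, rfl⟩)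
      have ha' : a = 3 ∨ a = 131 ∨ a = 259 := by simpa [A] using ha
      rcases lt_trichotomy (a + 128 * j) 387 with h | h | h
      · exact Or.inl ⟨a + 128 * j, by simp [A]; omega, _, w' 3 (by simp), by omega⟩
      · exact Or.inr (Or.inr ⟨rfl, s2, by omega⟩)
      · exact Or.inl ⟨a + 128 * j - 512, by simp [A]; omega, _, w' 515 (by simp), by omega⟩
    · rcases blurA φ t1 ha with h | ⟨a', h, rfl⟩
      · exact Or.inl ⟨_, h, _, w 1 (by simp), by omega⟩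
      · exact Or.inl ⟨_, h, _, w 5 (by simp), by omega⟩
  · have w : 2 + 16 * i ∈ A φ t ∧ 4 + 16 * i ∈ A φ t := by
      rw [A2 φ t2]
      exact ⟨mem_Ac.2 (Or.inr ⟨i, hi, by simp⟩), mem_Ac.2 (Or.inr ⟨i, hi, by simp⟩)⟩
    by_cases s1 : s = 1
    · subst s1
      have w' : 3 ∈ A φ t ∧ 67 ∈ A φ t := by
        rw [A2 φ t2]
        exact ⟨mem_Ac.2 (Or.inl (by simp)), mem_Ac.2 (Or.inl (by simp))⟩
      have hb' : b = 3 ∨ b = 19 ∨ b = 35 := by simpa [B] using hb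
      rcases lt_trichotomy (b + 16 * i) 51 with h | h | h
      · exact Or.inl ⟨_, w'.1, b + 16 * i, by simp [B]; omega, by omega⟩
      · exact Or.inr (Or.inl ⟨t2, rfl, by omega⟩)
      · exact Or.inl ⟨_, w'.2, b + 16 * i - 64, by simp [B]; omega, by omega⟩
    · rcases blurB φ s1 hb with h | ⟨b', h, rfl⟩
      · exact Or.inl ⟨_, w.1, _, h, by omega⟩
      · exact Or.inl ⟨_, w.2, _, h, by omega⟩
  · have hne : vr (cl φ t) i ≠ vr (cl φ s) j := fun e => by rw [e, e2] at e1; simp at e1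
    have := vr_lt φ t i
    refine Or.inl ⟨3 + 16 * i + 1024 * (1 + vr (cl φ t) i), ?_,
      3 + 128 * j + 1024 * (nv φ - (1 + vr (cl φ t) i)), ?_, by omega⟩
    · rw [A2 φ t2]; exact mem_Ac.2 (Or.inr ⟨i, hi, by simp⟩)
    · rw [B2 φ s2]; exact mem_Bc.2 (Or.inr ⟨j, hj, Or.inr ⟨_, ⟨this, hne⟩, Or.inl rfl⟩⟩)

def wd (t k s : ℕ) : List ℕ := (1 + 2 * t) :: (List.replicate k 0 ++ [2 + 2 * s])

def ws (φ : List Cl) : List (List ℕ) :=
  (List.range (φ.length + 2)).flatMap fun t => (List.range (φ.length + 2)).flatMap fun s =>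
    (Ls φ t s).map fun k => wd t k s

theorem mem_ws {φ : List Cl} {w : List ℕ} : w ∈ ws φ ↔
    ∃ t < φ.length + 2, ∃ s < φ.length + 2, ∃ k ∈ Ls φ t s, wd t k s = w := by
  simp only [ws, List.mem_flatMap, List.mem_range, List.mem_map]

theorem wd_inj {t k s t' k' s' : ℕ} (h : wd t k s = wd t' k' s') : t = t' ∧ k = k' ∧ s = s' := by
  have h1 := congrArg List.length h
  simp only [wd, List.length_cons, List.length_append, List.length_replicate, List.length_nil] at h1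
  obtain rfl : k = k' := by omega
  simp only [wd, List.cons.injEq, List.append_cancel_left_eq, and_true] at h
  omega

theorem split {u v : List ℕ} {t k s : ℕ} (h : wd t k s = u ++ v) (hu : u ≠ []) (hv : v ≠ []) :
    ∃ a b, a + b = k ∧ u = (1 + 2 * t) :: List.replicate a 0 ∧
      v = List.replicate b 0 ++ [2 + 2 * s] := by
  obtain ⟨x, u, rfl⟩ := List.exists_cons_of_ne_nil hu
  obtain ⟨v, y, rfl⟩ := List.eq_nil_or_concat v |>.resolve_left hv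
  simp only [wd, List.cons_append, List.cons.injEq, List.concat_eq_append, ← List.append_assoc] at h
  obtain ⟨rfl, h⟩ := h
  obtain ⟨h1, h2⟩ := List.append_inj' h rfl
  obtain ⟨e, e1, e2⟩ := List.append_eq_replicate_iff.1 h1.symm
  exact ⟨u.length, v.length, e, by rw [← e1], by rw [← e2, List.concat_eq_append, h2]⟩

theorem cat (t a b s : ℕ) : ((1 + 2 * t) :: List.replicate a 0) ++
    (List.replicate b 0 ++ [2 + 2 * s]) = wd t (a + b) s := by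
  rw [wd, List.replicate_add, List.cons_append, List.append_assoc]

def red (φ : List Cl) : ℕ × List (List ℕ) := (2 * φ.length + 6, ws φ)

theorem red_pt : PT red := by
  have h0 : ∀ {α : Type} [Enc α] {f : α → List Cl} {g : α → ℕ}, PT f → PT g →
      PT fun x => A (f x) (g x) := by
    intro α _ f g hf hg; unfold A Ac cl vr; fun_prop
  have h1 : ∀ {α : Type} [Enc α] {f : α → List Cl} {g : α → ℕ}, PT f → PT g →
      PT fun x => B (f x) (g x) := by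
    intro α _ f g hf hg; unfold B Bc cl vr nv; fun_prop
  have h2 : PT fun x : (List Cl × ℕ) × ℕ => Ls x.1.1 x.1.2 x.2 := by
    unfold Ls nv
    refine PT.append (PT.flatMap (h0 (by fun_prop) (by fun_prop))
      (PT.map (h1 (by fun_prop) (by fun_prop)) (by fun_prop))) (by fun_prop)
  unfold red ws wd
  exact PT.pair (by fun_prop) (PT.flatMap (by fun_prop) (PT.flatMap (by fun_prop)
    (PT.map h2 (by fun_prop))))

theorem result : NPHard FACT := by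
  refine (hard_NAE3.red red red_pt fun φ => ⟨fun h => ?_, ?_⟩).npHard
  · obtain ⟨P, Q, hf, h⟩ := complete h
    have w0 : wd 0 0 0 ∈ ws φ :=
      mem_ws.2 ⟨0, by omega, 0, by omega, 0, by simp [mem_Ls, A, B], rfl⟩
    have f1 : {u | ∃ t < φ.length + 2, ∃ a ∈ P t, u = (1 + 2 * t) :: List.replicate a 0}.Finite :=
      ((Set.finite_Iio (φ.length + 2)).biUnion fun t _ => (hf t).1.image
        fun a => (1 + 2 * t) :: List.replicate a 0).subset (by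
          rintro _ ⟨t, ht, a, ha, rfl⟩; exact Set.mem_biUnion ht ⟨a, ha, rfl⟩)
    have f2 : {v | ∃ t < φ.length + 2, ∃ a ∈ Q t, v = List.replicate a 0 ++ [2 + 2 * t]}.Finite :=
      ((Set.finite_Iio (φ.length + 2)).biUnion fun t _ => (hf t).2.image
        fun a => List.replicate a 0 ++ [2 + 2 * t]).subset (by
          rintro _ ⟨t, ht, a, ha, rfl⟩; exact Set.mem_biUnion ht ⟨a, ha, rfl⟩)
    refine ⟨List.ne_nil_of_mem w0, ?_, f1.toFinset, f2.toFinset, ?_, ?_, ?_, ?_, fun w => ?_⟩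
    · intro w hw x hx
      obtain ⟨t, ht, s, hs, k, -, rfl⟩ := mem_ws.1 hw
      simp only [wd, List.mem_cons, List.mem_append, List.mem_replicate, List.not_mem_nil,
        or_false] at hx
      simp only [red]; omega
    · intro w hw x hx
      obtain ⟨t, ht, k, -, rfl⟩ := f1.mem_toFinset.1 hw
      simp only [List.mem_cons, List.mem_replicate] at hx
      simp only [red]; omega
    · intro w hw x hx
      obtain ⟨t, ht, k, -, rfl⟩ := f2.mem_toFinset.1 hw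
      simp only [List.mem_cons, List.mem_append, List.mem_replicate, List.not_mem_nil,
        or_false] at hx
      simp only [red]; omega
    · intro e
      obtain ⟨t, -, k, -, e⟩ := f1.mem_toFinset.1 (e ▸ Finset.mem_singleton_self [])
      simp at e
    · intro e
      obtain ⟨t, -, k, -, e⟩ := f2.mem_toFinset.1 (e ▸ Finset.mem_singleton_self [])
      simp at e
    · simp only [red, mem_ws, Set.Finite.mem_toFinset, Set.mem_setOf_eq]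
      constructor
      · rintro ⟨t, ht, s, hs, k, hk, rfl⟩
        obtain ⟨a, ha, b, hb, rfl⟩ := (h t ht s hs k).1 hk
        exact ⟨_, ⟨t, ht, a, ha, rfl⟩, _, ⟨s, hs, b, hb, rfl⟩, (cat _ _ _ _).symm⟩
      · rintro ⟨_, ⟨t, ht, a, ha, rfl⟩, _, ⟨s, hs, b, hb, rfl⟩, rfl⟩
        exact ⟨t, ht, s, hs, a + b, (h t ht s hs _).2 ⟨a, ha, b, hb, rfl⟩, (cat _ _ _ _).symm⟩
  · rintro ⟨hne, -, L₁, L₂, -, -, n1, n2, h⟩
    simp only [red] at h hne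
    obtain ⟨w0, hw0⟩ := List.exists_mem_of_ne_nil _ hne
    obtain ⟨u0, hu0, v0, hv0, -⟩ := (h w0).1 hw0
    have ex : ∀ S : Finset (List ℕ), S ≠ {[]} → [] ∈ S → ∃ u ∈ S, u ≠ [] := by
      intro S h1 h2
      by_contra hc
      push Not at hc
      exact h1 (Finset.eq_singleton_iff_unique_mem.2 ⟨h2, hc⟩)
    have e1 : [] ∉ L₁ := by
      intro he
      obtain ⟨u, hu, hn⟩ := ex _ n1 he
      obtain ⟨t, -, s, -, k, -, e⟩ := mem_ws.1 ((h _).2 ⟨_, he, v0, hv0, rfl⟩)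
      obtain ⟨t', -, s', -, k', -, e'⟩ := mem_ws.1 ((h _).2 ⟨u, hu, v0, hv0, rfl⟩)
      rw [List.nil_append] at e
      obtain ⟨a, b, -, -, e2⟩ := split e' hn (by rw [← e]; simp [wd])
      have : 1 + 2 * t ∈ v0 := by rw [← e]; simp [wd]
      rw [e2] at this
      simp at this; omega
    have e2 : [] ∉ L₂ := by
      intro he
      obtain ⟨v, hv, hn⟩ := ex _ n2 he
      obtain ⟨t, -, s, -, k, -, e⟩ := mem_ws.1 ((h _).2 ⟨u0, hu0, _, he, rfl⟩)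
      obtain ⟨t', -, s', -, k', -, e'⟩ := mem_ws.1 ((h _).2 ⟨u0, hu0, v, hv, rfl⟩)
      rw [List.append_nil] at e
      obtain ⟨a, b, -, e2, -⟩ := split e' (by rw [← e]; simp [wd]) hn
      have : 2 + 2 * s ∈ u0 := by rw [← e]; simp [wd]
      rw [e2] at this
      simp at this; omega
    refine sound (P := fun t => {a | (1 + 2 * t) :: List.replicate a 0 ∈ L₁})
      (Q := fun s => {b | List.replicate b 0 ++ [2 + 2 * s] ∈ L₂}) fun t ht s hs k => ⟨fun hk => ?_, ?_⟩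
    · obtain ⟨u, hu, v, hv, e⟩ := (h _).1 (mem_ws.2 ⟨t, ht, s, hs, k, hk, rfl⟩)
      obtain ⟨a, b, e', rfl, rfl⟩ := split e (fun h => e1 (h ▸ hu)) (fun h => e2 (h ▸ hv))
      exact ⟨a, hu, b, hv, e'⟩
    · rintro ⟨a, ha, b, hb, rfl⟩
      obtain ⟨t', -, s', -, k', hk, e⟩ := mem_ws.1 ((h _).2 ⟨_, ha, _, hb, rfl⟩)
      rw [cat] at e
      obtain ⟨rfl, rfl, rfl⟩ := wd_inj e
      exact hk

end Pool.Agent.Results.MP_e24068_lc.Hard
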